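import Pool.Agent.Helper19.TGX.Goals

/-!
# Project TGX (MP_a41896_nt), packet BPF
-/

set_option autoImplicit false
set_option linter.unusedSectionVars false

namespace Pool.Agent.Helper34.TGX.BPF

open Polynomial WeierstrassCurve
open Pool.Agent.Helper29.BL Pool.Agent.Helper19.TGX
open Pool.Agent.Helper60.T3 (WL)

theorem idA {R : Type*} [CommRing R] (b2 b4 b6 b8 A B : R) (h : 4 * b8 = b2 * b6 - b4 ^ 2) :
    ∃ u v : R, u * (12 * A ^ 2 + 2 * b2 * A * B + 2 * b4 * B ^ 2) +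
      v * (b2 * A ^ 2 + 4 * b4 * A * B + 3 * b6 * B ^ 2) =
      48 * (-b2 ^ 2 * b8 - 8 * b4 ^ 3 - 27 * b6 ^ 2 + 9 * b2 * b4 * b6) * A ^ 3 := by
  refine ⟨((4 * b4) * (2 * b2 * (3 * b6) - 4 * b4 * (2 * b4)) -
      3 * b6 * (3 * b6 * 12 - 2 * b4 * b2)) * A +
      (3 * b6 * (2 * b2 * (3 * b6) - 4 * b4 * (2 * b4))) * B,
    (2 * b4 * (3 * b6 * 12 - 2 * b4 * b2) - 2 * b2 * (2 * b2 * (3 * b6) - 4 * b4 * (2 * b4))) * A -
      (2 * b4 * (2 * b2 * (3 * b6) - 4 * b4 * (2 * b4))) * B, ?_⟩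
  linear_combination (12 * b2 ^ 2 * A ^ 3) * h

theorem idB {R : Type*} [CommRing R] (b2 b4 b6 b8 A B : R) (h : 4 * b8 = b2 * b6 - b4 ^ 2) :
    ∃ u v : R, u * (12 * A ^ 2 + 2 * b2 * A * B + 2 * b4 * B ^ 2) +
      v * (b2 * A ^ 2 + 4 * b4 * A * B + 3 * b6 * B ^ 2) =
      48 * (-b2 ^ 2 * b8 - 8 * b4 ^ 3 - 27 * b6 ^ 2 + 9 * b2 * b4 * b6) * B ^ 3 := by
  refine ⟨((4 * b4) * (2 * b2 * b2 - 4 * b4 * 12) - b2 * (b2 * (2 * b4) - 12 * (3 * b6))) * B +
      (b2 * (2 * b2 * b2 - 4 * b4 * 12)) * A,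
    (12 * (b2 * (2 * b4) - 12 * (3 * b6)) - 2 * b2 * (2 * b2 * b2 - 4 * b4 * 12)) * B -
      (12 * (2 * b2 * b2 - 4 * b4 * 12)) * A, ?_⟩
  linear_combination (12 * b2 ^ 2 * B ^ 3) * h

section

variable {k : Type} [Field k] [CharZero k] (W : Affine k)

omit [CharZero k] in
theorem cn (n : ℕ) [n.AtLeastTwo] : (C (OfNat.ofNat n : k) : k[X]) = OfNat.ofNat n :=
  map_ofNat C n

theorem bp_eq : bp W = C 4 * X ^ 3 + C W.b₂ * X ^ 2 + C (2 * W.b₄) * X + C W.b₆ := by
  unfold bp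
  rw [C_mul, cn 4, cn 2]

theorem four_ne : (4 : k) ≠ 0 := by norm_num

theorem hbC : 4 * (C W.b₈ : k[X]) = C W.b₂ * C W.b₆ - C W.b₄ ^ 2 := by
  have h := congrArg (C : k → k[X]) W.b_relation
  rw [C_mul, C_sub, C_mul, C_pow, cn 4] at h
  exact h

theorem dC : (C W.Δ : k[X]) = -C W.b₂ ^ 2 * C W.b₈ - 8 * C W.b₄ ^ 3 - 27 * C W.b₆ ^ 2 +
    9 * C W.b₂ * C W.b₄ * C W.b₆ := by
  rw [WeierstrassCurve.Δ]
  rw [C_add, C_sub, C_sub, C_mul, C_mul, C_mul, C_mul, C_mul, C_mul, C_neg, C_pow, C_pow, C_pow,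
    cn 8, cn 27, cn 9]

theorem main (hW : W.IsElliptic) :
    (bp W).natDegree = 3 ∧ (bp W).leadingCoeff = 4 ∧ IsCoprime (bp W) (derivative (bp W)) ∧
    Squarefree (bp W) ∧ (∀ (F : Type) [Field F] [Algebra k F] (x : F),
      aeval x (bp W) = Bf (WL F W) x) ∧
    (∀ (F : Type) [Field F] [Algebra k F] (x z : F) (A B : k[X]), z * aeval x B = aeval x A →
      aeval x (hf W A B) = Bf (WL F W) z * aeval x B ^ 3) ∧
    ∀ A B : k[X], IsCoprime A B → IsCoprime (hf W A B) B ∧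
      (hf W A B = 0 → wr A B = 0) := by
  have hD : W.Δ ≠ 0 := W.isUnit_Δ.ne_zero
  have hDu : IsUnit (48 * (C W.Δ : k[X])) := by
    have h48 : (48 : k[X]) = C 48 := (cn 48).symm
    rw [h48, ← C_mul, isUnit_C, isUnit_iff_ne_zero]
    exact mul_ne_zero (by norm_num) hD
  have hcop : IsCoprime (bp W) (derivative (bp W)) := by
    obtain ⟨u, v, h⟩ := idB (C W.b₂ : k[X]) (C W.b₄) (C W.b₆) (C W.b₈) X 1 (hbC W)
    rw [← dC W] at h
    have hd : derivative (bp W) = 12 * X ^ 2 + 2 * C W.b₂ * X + 2 * C W.b₄ := by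
      unfold bp
      simp only [derivative_add, derivative_mul, derivative_C, derivative_X_pow, derivative_X,
        derivative_ofNat, Nat.cast_ofNat, cn 2, cn 3]
      ring
    obtain ⟨e, he⟩ := hDu.exists_left_inv
    refine ⟨e * (3 * v), e * (u - X * v), ?_⟩
    rw [← he, hd]
    unfold bp
    linear_combination e * h
  refine ⟨?_, ?_, hcop, Polynomial.Separable.squarefree hcop, ?_, ?_, ?_⟩
  · rw [bp_eq]
    exact natDegree_cubic four_ne
  · rw [bp_eq]
    exact leadingCoeff_cubic four_ne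
  · intro F _ _ x
    unfold bp Bf
    simp only [map_add, map_mul, map_pow, aeval_C, aeval_X, WeierstrassCurve.map_b₂,
      WeierstrassCurve.map_b₄, WeierstrassCurve.map_b₆, map_ofNat]
  · intro F _ _ x z A B h
    unfold hf Bf
    simp only [map_add, map_mul, map_pow, aeval_C, WeierstrassCurve.map_b₂,
      WeierstrassCurve.map_b₄, WeierstrassCurve.map_b₆, map_ofNat, ← h]
    ring
  · intro A B hAB
    refine ⟨?_, ?_⟩
    · have e : hf W A B = 4 * A ^ 3 + B * (C W.b₂ * A ^ 2 + 2 * C W.b₄ * A * B +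
          C W.b₆ * B ^ 2) := by
        unfold hf
        ring
      rw [e]
      have h4 : IsUnit (4 : k[X]) := by
        have : (4 : k[X]) = C 4 := (cn 4).symm
        rw [this, isUnit_C, isUnit_iff_ne_zero]
        exact four_ne
      have h1 : IsCoprime (4 * A ^ 3) B := by
        rw [isCoprime_mul_unit_left_left h4]
        exact hAB.pow_left
      exact h1.add_mul_left_left _
    · intro h0
      have h0' : derivative (hf W A B) = 0 := by rw [h0, derivative_zero]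
      have hd : derivative (hf W A B) = (12 * A ^ 2 + 2 * C W.b₂ * A * B + 2 * C W.b₄ * B ^ 2) *
          derivative A + (C W.b₂ * A ^ 2 + 4 * C W.b₄ * A * B + 3 * C W.b₆ * B ^ 2) *
          derivative B := by
        unfold hf
        simp only [derivative_add, derivative_mul, derivative_C, derivative_pow,
          derivative_ofNat, Nat.cast_ofNat, cn 2, cn 3]
        ring
      have hA : (12 * A ^ 2 + 2 * C W.b₂ * A * B + 2 * C W.b₄ * B ^ 2) * wr A B = 0 := by
        have : (12 * A ^ 2 + 2 * C W.b₂ * A * B + 2 * C W.b₄ * B ^ 2) * wr A B =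
            derivative (hf W A B) * B - 3 * hf W A B * derivative B := by
          rw [hd]
          unfold wr hf
          ring
        rw [this, h0, derivative_zero]
        ring
      have hB : (C W.b₂ * A ^ 2 + 4 * C W.b₄ * A * B + 3 * C W.b₆ * B ^ 2) * wr A B = 0 := by
        have : (C W.b₂ * A ^ 2 + 4 * C W.b₄ * A * B + 3 * C W.b₆ * B ^ 2) * wr A B =
            3 * hf W A B * derivative A - A * derivative (hf W A B) := by
          rw [hd]
          unfold wr hf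
          ring
        rw [this, h0, derivative_zero]
        ring
      obtain ⟨u, v, h⟩ := idA (C W.b₂ : k[X]) (C W.b₄) (C W.b₆) (C W.b₈) A B (hbC W)
      obtain ⟨u', v', h'⟩ := idB (C W.b₂ : k[X]) (C W.b₄) (C W.b₆) (C W.b₈) A B (hbC W)
      rw [← dC W] at h h'
      have e1 : 48 * (C W.Δ : k[X]) * A ^ 3 * wr A B = 0 := by
        rw [← h]
        linear_combination u * hA + v * hB
      have e2 : 48 * (C W.Δ : k[X]) * B ^ 3 * wr A B = 0 := by
        rw [← h']
        linear_combination u' * hA + v' * hB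
      by_contra hw
      have hA0 : A = 0 := by
        by_contra hA0
        exact mul_ne_zero (mul_ne_zero hDu.ne_zero (pow_ne_zero 3 hA0)) hw e1
      have hB0 : B = 0 := by
        by_contra hB0
        exact mul_ne_zero (mul_ne_zero hDu.ne_zero (pow_ne_zero 3 hB0)) hw e2
      rw [hA0, hB0] at hAB
      exact not_isCoprime_zero_zero hAB

end

/-- Packet BPF. -/
theorem t : Pool.Agent.Helper19.TGX.BPF := by
  intro k _ _ W hW
  exact main W hW

end Pool.Agent.Helper34.TGX.BPF
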